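import Pool.Agent.Q152.CC.Stm3

set_option autoImplicit false

namespace Pool.Agent.Q153.CC

open Finset MeasureTheory Pool.Agent.Y692.QS Pool.Agent.Q152.CC

theorem al_injC : Function.Injective (fun t : ℤ × ℤ => al t.1 t.2) := by
  rintro ⟨a, b⟩ ⟨c, d⟩ h
  have h1 := congrArg QuadraticAlgebra.re h
  have h2 := congrArg QuadraticAlgebra.im h
  simp only [al] at h1 h2
  ext
  · show a = c
    omega
  · show b = d
    omega

theorem al_modC (F a b : ℤ) : (((3 * F : ℤ)) : Ei) ∣ al (F * a) (F * b) - 1 := by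
  have e1 : (1 : Ei).re = 1 := rfl
  have e2 : (1 : Ei).im = 0 := rfl
  rw [int_dvd]
  constructor
  · refine ⟨a, ?_⟩
    rw [QuadraticAlgebra.re_sub, e1]
    simp only [al]
    ring
  · refine ⟨b, ?_⟩
    rw [QuadraticAlgebra.im_sub, e2]
    simp only [al]
    ring

theorem nr_alC (F a b : ℤ) : (3 * F) ∣ nr (al (F * a) (F * b)) - 1 := by
  refine ⟨2 * a + 3 * F * a ^ 2 - (1 + 3 * F * a) * b + 3 * F * b ^ 2, ?_⟩
  unfold nr
  simp only [al]
  ring

theorem sum_inv_sqC (K : ℕ) : ∑ n ∈ Ioc 132 K, (((n : ℝ)) ^ 2)⁻¹ ≤ 1 / 132 := by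
  rcases le_or_gt 132 K with h | h
  · have h1 := sum_Ioc_inv_sq_le_sub (α := ℝ) (k := 132) (n := K) (by norm_num) h
    have h2 : (0 : ℝ) ≤ ((K : ℝ))⁻¹ := by positivity
    have h3 : (((132 : ℕ) : ℝ))⁻¹ = 1 / 132 := by norm_num
    rw [h3] at h1
    linarith
  · rw [Finset.Ioc_eq_empty (by omega), Finset.sum_empty]
    norm_num

open Classical in
/-- the multiples of `γ` in a box -/
theorem box_mulC (lbb : S_LBB) (F : ℕ) (hF : 1 ≤ F) (γ : Ei) (p P : ℕ) (hp : 0 < p)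
    (hγ : nr γ = (p : ℤ) ^ 2) (s : Finset (ℤ × ℤ))
    (hs : ∀ t ∈ s, nr (al (F * t.1) (F * t.2)) ≤ P) :
    (((s.filter fun t => γ ∣ al (F * t.1) (F * t.2)).card : ℕ) : ℝ) ≤
      11 * ((P : ℝ) / (p : ℝ) ^ 2) / ((3 * F : ℕ) : ℝ) ^ 2 + 2 := by
  obtain ⟨h1, h2⟩ := lbb (3 * F) γ ((P : ℝ) / (p : ℝ) ^ 2) (by omega) (by positivity)
  refine le_trans ?_ h2
  have hp' : (0 : ℝ) < (p : ℝ) ^ 2 := by
    have : (0 : ℝ) < p := by exact_mod_cast hp
    positivity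
  have h3 : (s.filter fun t => γ ∣ al (F * t.1) (F * t.2)).card ≤
      {β : Ei | (((3 * F : ℕ) : ℤ) : Ei) ∣ γ * β - 1 ∧ ((nr β : ℤ) : ℝ) ≤ (P : ℝ) / (p : ℝ) ^ 2}.ncard := by
    rw [← Set.ncard_coe_finset]
    refine Set.ncard_le_ncard_of_injOn
      (fun t => if h : γ ∣ al (F * t.1) (F * t.2) then h.choose else 0) ?_ ?_ h1
    · intro t ht
      rw [Finset.mem_coe, Finset.mem_filter] at ht
      have hd := ht.2
      simp only [dif_pos hd]
      have hc := hd.choose_spec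
      refine ⟨?_, ?_⟩
      · rw [← hc]
        have := al_modC (F : ℤ) t.1 t.2
        push_cast at this ⊢
        exact this
      · have h4 : nr (al (F * t.1) (F * t.2)) = nr γ * nr hd.choose := by
          conv_lhs => rw [hc]
          rw [nr_mul]
        have h5 := hs t ht.1
        rw [h4, hγ] at h5
        rw [le_div_iff₀ hp']
        have h6 : (((p : ℤ) ^ 2 * nr hd.choose : ℤ) : ℝ) ≤ ((P : ℤ) : ℝ) := by exact_mod_cast h5
        push_cast at h6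
        linarith
    · intro t ht t' ht' h
      rw [Finset.mem_coe, Finset.mem_filter] at ht ht'
      have hd := ht.2
      have hd' := ht'.2
      simp only [dif_pos hd, dif_pos hd'] at h
      have hc := hd.choose_spec
      have hc' := hd'.choose_spec
      have h7 : al (F * t.1) (F * t.2) = al (F * t'.1) (F * t'.2) := by
        rw [hc, hc', h]
      have h8 := al_injC (a₁ := ((F : ℤ) * t.1, (F : ℤ) * t.2)) (a₂ := ((F : ℤ) * t'.1, (F : ℤ) * t'.2)) h7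
      have hF0 : (F : ℤ) ≠ 0 := by exact_mod_cast (by omega : F ≠ 0)
      have h9 := (Prod.mk.injEq _ _ _ _).mp h8
      exact Prod.ext (mul_left_cancel₀ hF0 h9.1) (mul_left_cancel₀ hF0 h9.2)
  exact_mod_cast h3

open Classical in
/-- the elements of a box whose norm is not squarefree -/
theorem badC (lba : S_LBA) (lbb : S_LBB) (c : ℕ) (hc : c = 132) (F : ℕ) (hF : 1 ≤ F)
    (hdiv : ∀ p : ℕ, p.Prime → p ≤ c → p ∣ F) (P : ℕ) (s : Finset (ℤ × ℤ))
    (hs : ∀ t ∈ s, nr (al (F * t.1) (F * t.2)) ≤ P) :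
    (((s.filter fun t => ¬ Squarefree (nr (al (F * t.1) (F * t.2))).toNat).card : ℕ) : ℝ) ≤
      (P : ℝ) / (4 * ((3 * F : ℕ) : ℝ) ^ 2) + 6 * (Nat.sqrt P : ℝ) := by
  have hM : (0 : ℝ) < ((3 * F : ℕ) : ℝ) ^ 2 := by
    have : (0 : ℝ) < ((3 * F : ℕ) : ℝ) := by exact_mod_cast (by omega : 0 < 3 * F)
    positivity
  -- for each prime
  have hstep : ∀ p ∈ (Ioc c (Nat.sqrt P)).filter Nat.Prime,
      (((s.filter fun t => ((p : ℤ) ^ 2) ∣ nr (al (F * t.1) (F * t.2))).card : ℕ) : ℝ) ≤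
        3 * (11 * ((P : ℝ) / (p : ℝ) ^ 2) / ((3 * F : ℕ) : ℝ) ^ 2 + 2) := by
    intro p hp
    rw [Finset.mem_filter, Finset.mem_Ioc] at hp
    obtain ⟨γ₁, γ₂, γ₃, g1, g2, g3, hg⟩ := lba p hp.2 (by omega)
    have hp0 : 0 < p := hp.2.pos
    have hsub : (s.filter fun t => ((p : ℤ) ^ 2) ∣ nr (al (F * t.1) (F * t.2))) ⊆
        ((s.filter fun t => γ₁ ∣ al (F * t.1) (F * t.2)) ∪
          (s.filter fun t => γ₂ ∣ al (F * t.1) (F * t.2))) ∪
          (s.filter fun t => γ₃ ∣ al (F * t.1) (F * t.2)) := by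
      intro t ht
      rw [Finset.mem_filter] at ht
      rw [Finset.mem_union, Finset.mem_union, Finset.mem_filter, Finset.mem_filter,
        Finset.mem_filter]
      rcases hg _ ht.2 with h | h | h
      · exact Or.inl (Or.inl ⟨ht.1, h⟩)
      · exact Or.inl (Or.inr ⟨ht.1, h⟩)
      · exact Or.inr ⟨ht.1, h⟩
    have h1 := (Finset.card_le_card hsub).trans ((Finset.card_union_le _ _).trans
      (Nat.add_le_add_right (Finset.card_union_le _ _) _))
    have b1 := box_mulC lbb F hF γ₁ p P hp0 g1 s hs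
    have b2 := box_mulC lbb F hF γ₂ p P hp0 g2 s hs
    have b3 := box_mulC lbb F hF γ₃ p P hp0 g3 s hs
    have h2 : (((s.filter fun t => ((p : ℤ) ^ 2) ∣ nr (al (F * t.1) (F * t.2))).card : ℕ) : ℝ) ≤
        (((s.filter fun t => γ₁ ∣ al (F * t.1) (F * t.2)).card : ℕ) : ℝ) +
        (((s.filter fun t => γ₂ ∣ al (F * t.1) (F * t.2)).card : ℕ) : ℝ) +
        (((s.filter fun t => γ₃ ∣ al (F * t.1) (F * t.2)).card : ℕ) : ℝ) := by exact_mod_cast h1
    linarith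
  -- the covering
  have hcov : (s.filter fun t => ¬ Squarefree (nr (al (F * t.1) (F * t.2))).toNat) ⊆
      ((Ioc c (Nat.sqrt P)).filter Nat.Prime).biUnion
        (fun p => s.filter fun t => ((p : ℤ) ^ 2) ∣ nr (al (F * t.1) (F * t.2))) := by
    intro t ht
    rw [Finset.mem_filter] at ht
    obtain ⟨hts, hsq⟩ := ht
    rw [Nat.squarefree_iff_prime_squarefree] at hsq
    push Not at hsq
    obtain ⟨p, hp, hpd⟩ := hsq
    set N := nr (al (F * t.1) (F * t.2)) with hN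
    have hN0 : 0 ≤ N := nr_nonneg _
    have hNc : ((N.toNat : ℕ) : ℤ) = N := Int.toNat_of_nonneg hN0
    have hpN : ((p : ℤ) ^ 2) ∣ N := by
      rw [← hNc, pow_two]
      exact_mod_cast hpd
    have hmod := nr_alC (F : ℤ) t.1 t.2
    rw [← hN] at hmod
    have hNne : N ≠ 0 := by
      intro h0
      rw [h0] at hmod
      have h1 : (3 : ℤ) ∣ 0 - 1 := Dvd.dvd.trans (Dvd.intro _ rfl) hmod
      omega
    have hp132 : c < p := by
      by_contra h
      have h1 := hdiv p hp (by omega)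
      have h2 : (p : ℤ) ∣ N - 1 := by
        refine Dvd.dvd.trans ?_ hmod
        exact Dvd.dvd.mul_left (by exact_mod_cast h1) _
      have h3 : (p : ℤ) ∣ N := Dvd.dvd.trans (Dvd.intro _ (pow_two _).symm) hpN
      have h4 : (p : ℤ) ∣ 1 := by
        have := dvd_sub h3 h2
        rwa [sub_sub_cancel] at this
      have h5 : p ∣ 1 := by exact_mod_cast h4
      exact hp.one_lt.ne' (Nat.dvd_one.mp h5)
    have hle : p ≤ Nat.sqrt P := by
      rw [Nat.le_sqrt]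
      have h1 : p * p ≤ N.toNat := Nat.le_of_dvd (by omega) hpd
      have h2 := hs t hts
      rw [← hN] at h2
      omega
    rw [Finset.mem_biUnion]
    exact ⟨p, by rw [Finset.mem_filter, Finset.mem_Ioc]; exact ⟨⟨hp132, hle⟩, hp⟩, by
      rw [Finset.mem_filter]; exact ⟨hts, hpN⟩⟩
  have h1 : (((s.filter fun t => ¬ Squarefree (nr (al (F * t.1) (F * t.2))).toNat).card : ℕ) : ℝ) ≤
      ∑ p ∈ (Ioc c (Nat.sqrt P)).filter Nat.Prime,
        (((s.filter fun t => ((p : ℤ) ^ 2) ∣ nr (al (F * t.1) (F * t.2))).card : ℕ) : ℝ) := by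
    exact_mod_cast (Finset.card_le_card hcov).trans Finset.card_biUnion_le
  calc (((s.filter fun t => ¬ Squarefree (nr (al (F * t.1) (F * t.2))).toNat).card : ℕ) : ℝ)
      ≤ ∑ p ∈ (Ioc c (Nat.sqrt P)).filter Nat.Prime,
          3 * (11 * ((P : ℝ) / (p : ℝ) ^ 2) / ((3 * F : ℕ) : ℝ) ^ 2 + 2) :=
        h1.trans (Finset.sum_le_sum hstep)
    _ ≤ ∑ p ∈ Ioc c (Nat.sqrt P),
          3 * (11 * ((P : ℝ) / (p : ℝ) ^ 2) / ((3 * F : ℕ) : ℝ) ^ 2 + 2) :=
        Finset.sum_le_sum_of_subset_of_nonneg (Finset.filter_subset _ _)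
          (fun p _ _ => by positivity)
    _ = 33 * P / ((3 * F : ℕ) : ℝ) ^ 2 * ∑ p ∈ Ioc c (Nat.sqrt P), (((p : ℝ)) ^ 2)⁻¹ +
          6 * ((Nat.sqrt P - c : ℕ) : ℝ) := by
        rw [Finset.mul_sum]
        have h2 : (6 : ℝ) * ((Nat.sqrt P - c : ℕ) : ℝ) = ∑ p ∈ Ioc c (Nat.sqrt P), (6 : ℝ) := by
          rw [Finset.sum_const, Nat.card_Ioc, nsmul_eq_mul]
          ring
        rw [h2, ← Finset.sum_add_distrib]
        refine Finset.sum_congr rfl fun p _ => ?_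
        ring
    _ ≤ 33 * P / ((3 * F : ℕ) : ℝ) ^ 2 * (1 / 132) + 6 * (Nat.sqrt P : ℝ) := by
        have h3 : ∑ p ∈ Ioc c (Nat.sqrt P), (((p : ℝ)) ^ 2)⁻¹ ≤ 1 / 132 := by
          rw [hc]; exact sum_inv_sqC (Nat.sqrt P)
        have h4 : ((Nat.sqrt P - c : ℕ) : ℝ) ≤ (Nat.sqrt P : ℝ) := by exact_mod_cast Nat.sub_le _ _
        gcongr
    _ = _ := by
        field_simp
        ring

theorem exF (c : ℕ) : ∃ F : ℕ, 1 ≤ F ∧ ∀ p : ℕ, p.Prime → p ≤ c → p ∣ F :=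
  ⟨Nat.factorial c, Nat.factorial_pos _, fun p hp h => (hp.dvd_factorial).mpr h⟩

theorem lbc (lba : S_LBA) (lbb : S_LBB) : S_LBC := by
  classical
  obtain ⟨c, hc⟩ : ∃ c : ℕ, c = 132 := ⟨132, rfl⟩
  obtain ⟨F, hF, hdiv⟩ := exF c
  set M : ℝ := ((3 * F : ℕ) : ℝ) with hMdef
  have hM3 : (3 : ℝ) ≤ M := by
    rw [hMdef]; exact_mod_cast (by omega : 3 ≤ 3 * F)
  have hM0 : 0 < M := by linarith
  refine ⟨1 / (4 * M ^ 2), by positivity, 256 * (3 * F) ^ 4, fun P hP => ?_⟩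
  -- finiteness
  have hfin : {t : ℤ × ℤ | nr (al t.1 t.2) ≤ P ∧ Squarefree (nr (al t.1 t.2)).toNat}.Finite := by
    obtain ⟨h1, -⟩ := lbb 1 1 P le_rfl (Nat.cast_nonneg _)
    refine Set.Finite.of_finite_image (h1.subset ?_) (al_injC.injOn (s := _))
    rintro α ⟨t, ht, rfl⟩
    refine ⟨by simp, ?_⟩
    have := ht.1
    exact_mod_cast this
  refine ⟨hfin, ?_⟩
  set r : ℝ := √(P : ℝ) with hr
  have hr2 : r ^ 2 = P := Real.sq_sqrt (Nat.cast_nonneg _)
  have hr0 : 0 ≤ r := Real.sqrt_nonneg _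
  have hrM : 16 * M ^ 2 ≤ r := by
    rw [hr]
    apply Real.le_sqrt_of_sq_le
    have : (((256 * (3 * F) ^ 4 : ℕ)) : ℝ) ≤ P := by exact_mod_cast hP
    calc (16 * M ^ 2) ^ 2 = 256 * M ^ 4 := by ring
      _ = ((256 * (3 * F) ^ 4 : ℕ) : ℝ) := by rw [hMdef]; push_cast; ring
      _ ≤ P := this
  have hr144 : 144 ≤ r := by nlinarith
  set L : ℕ := ⌊r / (2 * M)⌋₊ with hL
  have hL1 : (L : ℝ) ≤ r / (2 * M) := Nat.floor_le (by positivity)
  have hL2 : r / (2 * M) < L + 1 := Nat.lt_floor_add_one _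
  have hML : M * L ≤ r / 2 := by
    calc M * L ≤ M * (r / (2 * M)) := by gcongr
      _ = r / 2 := by field_simp
  set s : Finset (ℤ × ℤ) := Icc (-(L : ℤ)) L ×ˢ Icc (-(L : ℤ)) L with hs
  have hbox : ∀ t ∈ s, nr (al (F * t.1) (F * t.2)) ≤ P := by
    intro t ht
    rw [hs, Finset.mem_product, Finset.mem_Icc, Finset.mem_Icc] at ht
    obtain ⟨⟨h1, h2⟩, h3, h4⟩ := ht
    have e1 : |((3 * F : ℕ) : ℝ) * (t.1 : ℝ)| ≤ M * L := by
      rw [abs_mul, abs_of_nonneg (Nat.cast_nonneg _)]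
      refine mul_le_mul_of_nonneg_left ?_ hM0.le
      rw [abs_le]
      constructor
      · exact_mod_cast h1
      · exact_mod_cast h2
    have e2 : |((3 * F : ℕ) : ℝ) * (t.2 : ℝ)| ≤ M * L := by
      rw [abs_mul, abs_of_nonneg (Nat.cast_nonneg _)]
      refine mul_le_mul_of_nonneg_left ?_ hM0.le
      rw [abs_le]
      constructor
      · exact_mod_cast h3
      · exact_mod_cast h4
    have e3 : ((nr (al (F * t.1) (F * t.2)) : ℤ) : ℝ) ≤ (P : ℝ) := by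
      have e4 : ((nr (al (F * t.1) (F * t.2)) : ℤ) : ℝ) =
          (1 + ((3 * F : ℕ) : ℝ) * t.1) ^ 2 - (1 + ((3 * F : ℕ) : ℝ) * t.1) * (((3 * F : ℕ) : ℝ) * t.2) +
            (((3 * F : ℕ) : ℝ) * t.2) ^ 2 := by
        unfold nr
        simp only [al]
        push_cast
        ring
      rw [e4]
      set x : ℝ := ((3 * F : ℕ) : ℝ) * (t.1 : ℝ)
      set y : ℝ := ((3 * F : ℕ) : ℝ) * (t.2 : ℝ)
      have f1 : |1 + x| ≤ r / 2 + 1 := by
        calc |1 + x| ≤ |(1 : ℝ)| + |x| := abs_add_le _ _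
          _ ≤ r / 2 + 1 := by rw [abs_one]; linarith
      have f2 : |y| ≤ r / 2 + 1 := by linarith
      have f3 : (1 + x) ^ 2 ≤ (r / 2 + 1) ^ 2 := sq_le_sq' (by linarith [(abs_le.mp f1).1]) (abs_le.mp f1).2
      have f4 : y ^ 2 ≤ (r / 2 + 1) ^ 2 := sq_le_sq' (by linarith [(abs_le.mp f2).1]) (abs_le.mp f2).2
      have f5 : -((1 + x) * y) ≤ (r / 2 + 1) ^ 2 := by nlinarith [sq_nonneg (1 + x + y)]
      nlinarith
    exact_mod_cast e3
  have hbad := badC lba lbb c hc F hF hdiv P s hbox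
  have hcard : (((s.card : ℕ)) : ℝ) = (2 * L + 1) ^ 2 := by
    rw [hs, Finset.card_product, Int.card_Icc]
    have : ((L : ℤ) + 1 - -(L : ℤ)).toNat = 2 * L + 1 := by omega
    rw [this]
    push_cast
    ring
  have hsplit := Finset.card_filter_add_card_filter_not (s := s)
    (fun t => Squarefree (nr (al (F * t.1) (F * t.2))).toNat)
  have hgood : (s.filter fun t => Squarefree (nr (al (F * t.1) (F * t.2))).toNat).card ≤
      {t : ℤ × ℤ | nr (al t.1 t.2) ≤ P ∧ Squarefree (nr (al t.1 t.2)).toNat}.ncard := by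
    rw [← Set.ncard_coe_finset]
    refine Set.ncard_le_ncard_of_injOn (fun t => ((F : ℤ) * t.1, (F : ℤ) * t.2)) ?_ ?_ hfin
    · intro t ht
      rw [Finset.mem_coe, Finset.mem_filter] at ht
      exact ⟨hbox t ht.1, ht.2⟩
    · intro t _ t' _ h
      have hF0 : (F : ℤ) ≠ 0 := by exact_mod_cast (by omega : F ≠ 0)
      have h9 := (Prod.mk.injEq _ _ _ _).mp h
      exact Prod.ext (mul_left_cancel₀ hF0 h9.1) (mul_left_cancel₀ hF0 h9.2)
  have hgood' : (((s.filter fun t => Squarefree (nr (al (F * t.1) (F * t.2))).toNat).card : ℕ) : ℝ) ≤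
      (({t : ℤ × ℤ | nr (al t.1 t.2) ≤ P ∧ Squarefree (nr (al t.1 t.2)).toNat}.ncard : ℕ) : ℝ) := by
    exact_mod_cast hgood
  refine le_trans ?_ hgood'
  have hsplit' : (((s.filter fun t => Squarefree (nr (al (F * t.1) (F * t.2))).toNat).card : ℕ) : ℝ) +
      (((s.filter fun t => ¬ Squarefree (nr (al (F * t.1) (F * t.2))).toNat).card : ℕ) : ℝ) =
      (s.card : ℝ) := by exact_mod_cast hsplit
  have hsq : (Nat.sqrt P : ℝ) ≤ r := Real.nat_sqrt_le_real_sqrt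
  have h2L : r / M - 1 ≤ 2 * L + 1 := by
    have : r / M = 2 * (r / (2 * M)) := by field_simp
    rw [this]; linarith
  have hrM1 : 1 ≤ r / M := by
    rw [le_div_iff₀ hM0]; nlinarith
  have hsqL : (r / M - 1) ^ 2 ≤ (2 * (L : ℝ) + 1) ^ 2 := by
    apply pow_le_pow_left₀ (by linarith) h2L
  have hrm : r / M ≤ r := div_le_self hr0 (by linarith)
  have hA : (P : ℝ) / M ^ 2 = (r / M) ^ 2 := by rw [div_pow, hr2]
  have hB : 16 * r ≤ (P : ℝ) / M ^ 2 := by
    rw [le_div_iff₀ (by positivity), ← hr2]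
    nlinarith
  have hC : (P : ℝ) / (4 * M ^ 2) = (P : ℝ) / M ^ 2 / 4 := by field_simp
  rw [← hMdef] at hbad
  rw [hC] at hbad
  have hD : 1 / (4 * M ^ 2) * (P : ℝ) = (P : ℝ) / M ^ 2 / 4 := by field_simp
  rw [hD]
  nlinarith

end Pool.Agent.Q153.CC
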