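import Pool.Agent.Q152.CC.Stm3

set_option autoImplicit false

namespace Pool.Agent.Q153.CC

open Finset MeasureTheory Pool.Agent.Y692.QS Pool.Agent.Q152.CC

/-- an element whose norm is divisible by a prime which is a norm -/
theorem dvd_or_star {p : ℕ} (hp : p.Prime) {π β : Ei} (hπ : nr π = p) (h : (p : ℤ) ∣ nr β) :
    π ∣ β ∨ star π ∣ β := by
  have hpz : Prime (p : ℤ) := Nat.prime_iff_prime_int.mp hp
  have hp0 : (p : ℤ) ≠ 0 := by exact_mod_cast hp.ne_zero
  -- the norm of a multiple of `π` or `star π` is divisible by `p`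
  have key : ∀ γ : Ei, nr γ = p → (p : ℤ) ∣ (β * star γ).im → γ ∣ β := by
    intro γ hγ h1
    have h2 : nr (β * star γ) = nr β * p := by rw [nr_mul, nr_star, hγ]
    have h3 : (p : ℤ) ∣ (β * star γ).re ^ 2 := by
      have h4 : (β * star γ).re ^ 2 = nr (β * star γ) +
          (β * star γ).im * ((β * star γ).re - (β * star γ).im) := by
        unfold nr; ring
      rw [h4, h2]
      exact dvd_add (Dvd.intro_left _ rfl) (Dvd.dvd.mul_right h1 _)
    have h5 : (p : ℤ) ∣ (β * star γ).re := hpz.dvd_of_dvd_pow h3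
    obtain ⟨δ, hδ⟩ := int_dvd.mpr ⟨h5, h1⟩
    have h6 : star γ ≠ 0 := by
      intro h7
      have : nr (star γ) = 0 := nr_zero_iff.mpr h7
      rw [nr_star, hγ] at this
      exact hp0 this
    refine ⟨δ, mul_right_cancel₀ h6 ?_⟩
    rw [hδ, ← hγ, ← mul_star]
    ring
  have h1 : (β * star π).im * (β * π).im = β.im ^ 2 * nr π - π.im ^ 2 * nr β := by
    rw [mul_im, mul_im, star_re, star_im]
    unfold nr
    ring
  have h2 : (p : ℤ) ∣ (β * star π).im * (β * π).im := by
    rw [h1, hπ]
    exact dvd_sub (Dvd.intro_left _ rfl) (Dvd.dvd.mul_left h _)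
  rcases hpz.dvd_or_dvd h2 with h3 | h3
  · left; exact key π hπ h3
  · right
    refine key (star π) (by rw [nr_star, hπ]) ?_
    rwa [star_star]

/-- division by an element which is `1` modulo `3` -/
theorem one_mod {π β : Ei} (h1 : (3 : Ei) ∣ π - 1) (h2 : (3 : Ei) ∣ π * β - 1) : (3 : Ei) ∣ β - 1 := by
  have h3 := dvd_sub h2 (Dvd.dvd.mul_right h1 β)
  have h4 : π * β - 1 - (π - 1) * β = β - 1 := by ring
  rwa [h4] at h3

theorem ns_assoc {π : Ei} (h : ¬ (3 : ℤ) ∣ nr π) : IsUnit (star (ep π)) := by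
  obtain ⟨-, h2⟩ := ep_cases π h
  exact IsUnit.of_mul_eq_one _ h2

theorem aux (pix : S_PIX) (m : ℕ) : Squarefree m → (∀ p : ℕ, p.Prime → p ∣ m → p % 3 = 1) →
    ∃ s : Finset Ei, s.card ≤ 2 ^ m.primeFactors.card ∧
      ∀ α : Ei, (3 : Ei) ∣ α - 1 → nr α = m → α ∈ s := by
  classical
  induction m using Nat.strong_induction_on with
  | _ m ih =>
    intro hm hp
    rcases eq_or_ne m 1 with rfl | hm1
    · refine ⟨{1}, by simp, fun α h1 h2 => ?_⟩
      rw [Finset.mem_singleton]
      have h3 : IsUnit α := isUnit_iff.mpr (by rw [h2]; norm_num)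
      rw [← ns_fix h1, ns_unit h3]
    · have hm0 : m ≠ 0 := hm.ne_zero
      set p := m.minFac with hpdef
      have hpp : p.Prime := Nat.minFac_prime hm1
      obtain ⟨m', hm'⟩ : p ∣ m := Nat.minFac_dvd m
      have hm'0 : m' ≠ 0 := by rintro rfl; simp at hm'; exact hm0 hm'
      have hcop : Nat.Coprime p m' := by
        rw [hm'] at hm
        exact Nat.coprime_of_squarefree_mul hm
      have hlt : m' < m := by
        rw [hm']
        exact lt_mul_left (Nat.pos_of_ne_zero hm'0) hpp.one_lt
      obtain ⟨s', hs', hs⟩ := ih m' hlt (hm.squarefree_of_dvd ⟨p, by rw [hm']; ring⟩)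
        (fun q hq hqm => hp q hq (hqm.trans ⟨p, by rw [hm']; ring⟩))
      have hp3 : p % 3 = 1 := hp p hpp (Nat.minFac_dvd m)
      obtain ⟨π, hπ⟩ := pix p hpp hp3
      have hn3 : ¬ (3 : ℤ) ∣ nr π := by rw [hπ]; omega
      have hn3' : ¬ (3 : ℤ) ∣ nr (star π) := by rw [nr_star, hπ]; omega
      refine ⟨s'.image (fun β => ns π * β) ∪ s'.image (fun β => ns (star π) * β), ?_, ?_⟩
      · have h1 : m.primeFactors.card = m'.primeFactors.card + 1 := by
          rw [hm', Nat.primeFactors_mul hpp.ne_zero hm'0, hpp.primeFactors,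
            Finset.card_union_of_disjoint, Finset.card_singleton, add_comm]
          rw [Finset.disjoint_singleton_left]
          intro h
          have := (Nat.mem_primeFactors.mp h).2.1
          have h2 := Nat.dvd_gcd (dvd_refl p) this
          rw [hcop.gcd_eq_one] at h2
          exact hpp.one_lt.ne' (Nat.dvd_one.mp h2)
        rw [h1, pow_succ]
        have h2 := Finset.card_union_le (s'.image (fun β => ns π * β))
          (s'.image (fun β => ns (star π) * β))
        have h3 : (s'.image (fun β => ns π * β)).card ≤ s'.card := Finset.card_image_le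
        have h4 : (s'.image (fun β => ns (star π) * β)).card ≤ s'.card := Finset.card_image_le
        omega
      · intro α h1 h2
        have h3 : (p : ℤ) ∣ nr α := by rw [h2, hm']; push_cast; exact Dvd.intro _ rfl
        have main : ∀ γ : Ei, nr γ = p → γ ∣ α → ∃ β ∈ s', ns γ * β = α := by
          intro γ hγ hd
          have hg3 : ¬ (3 : ℤ) ∣ nr γ := by rw [hγ]; omega
          have h4 : ns γ ∣ α := by
            unfold ns
            exact (IsUnit.mul_left_dvd (ns_assoc hg3)).mpr hd
          obtain ⟨β, hβ⟩ := h4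
          refine ⟨β, hs β ?_ ?_, hβ.symm⟩
          · refine one_mod (ns_one hg3) ?_
            rw [← hβ]; exact h1
          · have h5 : nr α = nr (ns γ) * nr β := by rw [hβ, nr_mul]
            rw [nr_ns hg3, hγ, h2, hm'] at h5
            push_cast at h5
            have h6 : (p : ℤ) ≠ 0 := by exact_mod_cast hpp.ne_zero
            exact (mul_left_cancel₀ h6 h5).symm
        rw [Finset.mem_union, Finset.mem_image, Finset.mem_image]
        rcases dvd_or_star hpp hπ h3 with h | h
        · left; exact main π hπ h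
        · right; exact main (star π) (by rw [nr_star, hπ]) h

theorem al_inj : Function.Injective (fun t : ℤ × ℤ => al t.1 t.2) := by
  rintro ⟨a, b⟩ ⟨c, d⟩ h
  have h1 := congrArg QuadraticAlgebra.re h
  have h2 := congrArg QuadraticAlgebra.im h
  simp only [al] at h1 h2
  ext
  · show a = c
    omega
  · show b = d
    omega

theorem al_one (a b : ℤ) : (3 : Ei) ∣ al a b - 1 := by
  have e1 : (1 : Ei).re = 1 := rfl
  have e2 : (1 : Ei).im = 0 := rfl
  have h : ((3 : ℤ) : Ei) ∣ al a b - 1 := by
    rw [int_dvd]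
    constructor
    · refine ⟨a, ?_⟩
      rw [QuadraticAlgebra.re_sub, e1]
      simp [al]
    · refine ⟨b, ?_⟩
      rw [QuadraticAlgebra.im_sub, e2]
      simp [al]
  simpa using h

theorem lbn (pix : S_PIX) : S_LBN := by
  intro m hm hp
  obtain ⟨s, hs, h⟩ := aux pix m hm hp
  have hsub : (fun t : ℤ × ℤ => al t.1 t.2) '' {t : ℤ × ℤ | nr (al t.1 t.2) = m} ⊆ (s : Set Ei) := by
    rintro α ⟨t, ht, rfl⟩
    exact h _ (al_one _ _) ht
  have hfin : ((fun t : ℤ × ℤ => al t.1 t.2) '' {t : ℤ × ℤ | nr (al t.1 t.2) = m}).Finite :=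
    s.finite_toSet.subset hsub
  refine ⟨Set.Finite.of_finite_image hfin al_inj.injOn, ?_⟩
  rw [← Set.ncard_image_of_injective _ al_inj]
  refine (Set.ncard_le_ncard hsub s.finite_toSet).trans ?_
  rw [Set.ncard_coe_finset]
  exact hs

end Pool.Agent.Q153.CC
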